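import Pool.Agent.W188.GP.Stm

/-!
# GP-DUAL: duality for the discrete Hilbert transform
-/

set_option autoImplicit false
set_option maxHeartbeats 400000

open Complex MeasureTheory Set Filter Topology

namespace Pool.Agent.W975.GP

open Pool.Agent.W188.GP

theorem hk_neg (j : ℤ) : hk (-j) = -hk j := by
  unfold hk
  by_cases h : j = 0
  · simp [h]
  · rw [if_neg h, if_neg (neg_ne_zero.2 h)]
    push_cast
    rw [div_neg]

/-- the dual sequence -/
noncomputable def bd (q : ℝ) (z : ℂ) : ℂ := (starRingEnd ℂ) z * ((‖z‖ ^ (q - 2) : ℝ) : ℂ)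

theorem bd_mul (q : ℝ) (hq : 0 < q) (z : ℂ) : bd q z * z = ((‖z‖ ^ q : ℝ) : ℂ) := by
  unfold bd
  rcases eq_or_ne z 0 with h | h
  · rw [h]
    simp [Real.zero_rpow hq.ne']
  · have h0 : 0 < ‖z‖ := norm_pos_iff.2 h
    have e1 : (starRingEnd ℂ) z * z = ((‖z‖ ^ 2 : ℝ) : ℂ) := by
      rw [mul_comm, Complex.mul_conj, Complex.normSq_eq_norm_sq]
    have e2 : ‖z‖ ^ 2 * ‖z‖ ^ (q - 2) = ‖z‖ ^ q := by
      have e3 : ‖z‖ ^ 2 = ‖z‖ ^ (2 : ℝ) := by
        exact_mod_cast (Real.rpow_natCast ‖z‖ 2).symm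
      rw [e3, ← Real.rpow_add h0]
      congr 1
      ring
    rw [mul_right_comm, e1, ← Complex.ofReal_mul, e2]

theorem bd_norm (q : ℝ) (hq : 1 < q) (z : ℂ) : ‖bd q z‖ = ‖z‖ ^ (q - 1) := by
  unfold bd
  rw [norm_mul, Complex.norm_conj, Complex.norm_real, Real.norm_eq_abs,
    abs_of_nonneg (Real.rpow_nonneg (norm_nonneg z) _)]
  rcases eq_or_ne z 0 with h | h
  · rw [h, norm_zero, zero_mul, Real.zero_rpow (by linarith)]
  · have h0 : 0 < ‖z‖ := norm_pos_iff.2 h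
    have e : q - 1 = 1 + (q - 2) := by ring
    rw [e, Real.rpow_add h0, Real.rpow_one]

theorem gp_dual : StDual := by
  intro p h hp hh hB S S' a
  obtain ⟨q, hq⟩ : ∃ q, q = p / (p - 1) := ⟨_, rfl⟩
  rw [← hq]
  have hp0 : 0 < p := by linarith
  have hp1 : 0 < p - 1 := by linarith
  have hq1 : 1 < q := by
    rw [hq, lt_div_iff₀ hp1]
    linarith
  have hq0 : 0 < q := by linarith
  have hqp : (q - 1) * p = q := by
    rw [hq]
    field_simp
    ring
  have hconj : q.HolderConjugate p := by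
    have h1 := Real.HolderConjugate.conjExponent hp
    have h2 : p.conjExponent = q := by
      rw [hq]
      rfl
    rw [h2] at h1
    exact h1.symm
  obtain ⟨A, hA⟩ : ∃ A, A = ∑ n ∈ S, ‖a n‖ ^ q := ⟨_, rfl⟩
  obtain ⟨Y, hY⟩ : ∃ Y, Y = ∑ m ∈ S', ‖HT S a m‖ ^ q := ⟨_, rfl⟩
  rw [← hA, ← hY]
  have hA0 : 0 ≤ A := by
    rw [hA]
    exact Finset.sum_nonneg fun n _ => Real.rpow_nonneg (norm_nonneg _) _
  have hY0 : 0 ≤ Y := by
    rw [hY]
    exact Finset.sum_nonneg fun n _ => Real.rpow_nonneg (norm_nonneg _) _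
  obtain ⟨b, hb⟩ : ∃ b : ℤ → ℂ, b = fun m => bd q (HT S a m) := ⟨_, rfl⟩
  have hYc : (Y : ℂ) = -∑ n ∈ S, a n * HT S' b n := by
    have e1 : (Y : ℂ) = ∑ m ∈ S', b m * HT S a m := by
      rw [hY]
      push_cast
      refine Finset.sum_congr rfl fun m _ => ?_
      rw [hb]
      have := bd_mul q hq0 (HT S a m)
      push_cast at this
      exact this.symm
    rw [e1, ← Finset.sum_neg_distrib]
    have e2 : ∀ m ∈ S', b m * HT S a m = ∑ n ∈ S, b m * (a n * hk (m - n)) := by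
      intro m _
      unfold HT
      rw [Finset.mul_sum]
    rw [Finset.sum_congr rfl e2, Finset.sum_comm]
    refine Finset.sum_congr rfl fun n _ => ?_
    unfold HT
    rw [Finset.mul_sum, ← Finset.sum_neg_distrib]
    refine Finset.sum_congr rfl fun m _ => ?_
    have e3 : hk (m - n) = -hk (n - m) := by
      rw [← hk_neg, neg_sub]
    rw [e3]
    ring
  have hYle : Y ≤ A ^ (1 / q) * (h * Y ^ (1 / p)) := by
    have e1 : Y ≤ ∑ n ∈ S, ‖a n‖ * ‖HT S' b n‖ := by
      have h1 : Y = ‖(Y : ℂ)‖ := by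
        rw [Complex.norm_real, Real.norm_eq_abs, abs_of_nonneg hY0]
      rw [h1, hYc, norm_neg]
      refine (norm_sum_le _ _).trans (le_of_eq ?_)
      exact Finset.sum_congr rfl fun n _ => norm_mul _ _
    refine e1.trans ((Real.inner_le_Lp_mul_Lq_of_nonneg S hconj (fun n _ => norm_nonneg _)
      (fun n _ => norm_nonneg _)).trans ?_)
    rw [← hA]
    refine mul_le_mul_of_nonneg_left ?_ (Real.rpow_nonneg hA0 _)
    have e2 := hB S' S b
    have e3 : ∑ n ∈ S', ‖b n‖ ^ p = Y := by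
      rw [hY]
      refine Finset.sum_congr rfl fun m _ => ?_
      rw [hb]
      show ‖bd q (HT S a m)‖ ^ p = _
      rw [bd_norm q hq1, ← Real.rpow_mul (norm_nonneg _), hqp]
    rw [e3] at e2
    have e4 : (∑ n ∈ S, ‖HT S' b n‖ ^ p) ^ (1 / p) ≤ (h ^ p * Y) ^ (1 / p) :=
      Real.rpow_le_rpow (Finset.sum_nonneg fun n _ => Real.rpow_nonneg (norm_nonneg _) _) e2
        (by positivity)
    refine e4.trans (le_of_eq ?_)
    rw [Real.mul_rpow (Real.rpow_nonneg hh _) hY0, ← Real.rpow_mul hh, mul_one_div_cancel hp0.ne',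
      Real.rpow_one]
  rcases hY0.eq_or_lt with h0 | h0
  · rw [← h0]
    exact mul_nonneg (Real.rpow_nonneg hh _) hA0
  · have hYp : 0 < Y ^ (1 / p) := Real.rpow_pos_of_pos h0 _
    have e1 : Y = Y ^ (1 / q) * Y ^ (1 / p) := by
      rw [← Real.rpow_add h0]
      have e2 : 1 / q + 1 / p = 1 := by
        rw [hq]
        field_simp
        ring
      rw [e2, Real.rpow_one]
    have e3 : Y ^ (1 / q) * Y ^ (1 / p) ≤ (A ^ (1 / q) * h) * Y ^ (1 / p) := by
      rw [← e1, mul_assoc]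
      exact hYle
    have e4 : Y ^ (1 / q) ≤ A ^ (1 / q) * h := le_of_mul_le_mul_right e3 hYp
    have e5 := Real.rpow_le_rpow (Real.rpow_nonneg hY0 _) e4 hq0.le
    rw [← Real.rpow_mul hY0, Real.mul_rpow (Real.rpow_nonneg hA0 _) hh, ← Real.rpow_mul hA0,
      one_div_mul_cancel hq0.ne', Real.rpow_one, Real.rpow_one] at e5
    linarith

end Pool.Agent.W975.GP
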